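import Pool.Agent.ChromScheme.Exists
import Pool.Agent.ChromScheme.Join

/-!
MP_ae60c6_co, Q1 (Duchet-Meyniel): disproof.  For all large `k` there is a `k`-chromatic finite
graph none of whose subgraphs has a chromatic `k`-scheme.
-/

namespace Pool.Agent.Results.MP_ae60c6_co.NoChromaticScheme

open Pool.Agent.ChromScheme Finset

/-- the counterexample before adding universal vertices -/
theorem base : ∃ (k : ℕ) (V : Type) (_ : Fintype V) (G : SimpleGraph V), 4 ≤ k ∧ G.Colorable k ∧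
    (∀ m < k, ¬ G.Colorable m) ∧ ∀ G' : G.Subgraph, ¬ HasScheme G'.coe k := by
  classical
  obtain ⟨N₁, hN₁, ⟨s, hs⟩, F₁, g₁⟩ := exists_good 9
  obtain ⟨N₂, hN₂, -, F₂, g₂⟩ := exists_good (5 + s)
  have e1 : 2 ^ 9 = 512 := by norm_num
  have e2 : 2 ^ (5 + s) = 32 * N₁ := by rw [pow_add, ← hs]; norm_num
  rw [e1] at g₁
  rw [e2] at g₂
  obtain ⟨V, hV⟩ : ∃ V : Type, V = (Fin N₁ × Fin N₂) := ⟨_, rfl⟩
  have htri := prodGraph_trifree (F₁ := F₁) (F₂ := F₂) g₁.trifree g₂.trifree
  have hcard : Fintype.card (Fin N₁ × Fin N₂) = Fintype.card (Fin N₁) * Fintype.card (Fin N₂) :=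
    Fintype.card_prod _ _
  have hc1 : 0 < Fintype.card (Fin N₁) := by rw [Fintype.card_fin]; exact hN₁
  have hc2 : 0 < Fintype.card (Fin N₂) := by rw [Fintype.card_fin]; exact hN₂
  have hind : ∀ Z : Finset (Fin N₁ × Fin N₂),
      (∀ p ∈ Z, ∀ q ∈ Z, ¬ (prodGraph F₁ F₂).Adj p q) →
      16 * Z.card ≤ Fintype.card (Fin N₁ × Fin N₂) := by
    intro Z hZ
    rw [hcard]
    exact prodGraph_indep (g₁.mono (by norm_num)) (g₂.mono (by omega)) Z hZ
  -- the chromatic number
  have hex : ∃ n, (prodGraph F₁ F₂)ᶜ.Colorable n := ⟨_, SimpleGraph.colorable_of_fintype _⟩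
  have hk := Nat.find_spec hex
  have hkmin := fun m (hm : m < Nat.find hex) => Nat.find_min hex hm
  revert hk hkmin
  generalize Nat.find hex = k
  intro hk hkmin
  have h2k : Fintype.card (Fin N₁ × Fin N₂) ≤ 2 * k := by
    obtain ⟨C⟩ := hk
    have h1 := Finset.card_le_mul_card_image_of_maps_to (s := (Finset.univ : Finset (Fin N₁ × Fin N₂)))
      (t := (Finset.univ : Finset (Fin k))) (f := fun v => C v) (fun _ _ => Finset.mem_univ _) 2 (by
        intro c _
        by_contra hcon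
        rw [not_le, Finset.two_lt_card_iff] at hcon
        obtain ⟨a, b, d, ha, hb, hd, hab, had, hbd⟩ := hcon
        have hadj : ∀ u v, C u = c → C v = c → u ≠ v → (prodGraph F₁ F₂).Adj u v := by
          intro u v hu hv huv
          by_contra hn
          exact C.valid (show (prodGraph F₁ F₂)ᶜ.Adj u v from ⟨huv, hn⟩) (hu.trans hv.symm)
        have ha' := (Finset.mem_filter.1 ha).2
        have hb' := (Finset.mem_filter.1 hb).2
        have hd' := (Finset.mem_filter.1 hd).2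
        exact htri a b d (hadj a b ha' hb' hab) (hadj b d hb' hd' hbd) (hadj a d ha' hd' had))
    rw [Finset.card_univ, Finset.card_univ, Fintype.card_fin] at h1
    exact h1
  -- `k` is at least `4`
  have h4 : 4 ≤ k := by
    have hz := hind {(⟨0, hN₁⟩, ⟨0, hN₂⟩)} (by
      intro p hp q hq
      rw [Finset.mem_singleton] at hp hq
      rw [hp, hq]
      exact (prodGraph F₁ F₂).loopless.irrefl _)
    rw [Finset.card_singleton] at hz
    omega
  refine ⟨k, Fin N₁ × Fin N₂, inferInstance, (prodGraph F₁ F₂)ᶜ, h4, hk, hkmin, ?_⟩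
  refine no_scheme (prodGraph F₁ F₂) hind k ?_ h2k
  intro I x y hx hy hI
  rw [hcard] at hI
  refine prodGraph_conflict g₁ ?_ hc1 hc2 I x y hx hy hI
  rw [Fintype.card_fin]
  exact g₂

/-- **Disproof of the Duchet-Meyniel question.**  There is `k₀ ≥ 4` such that for every `k ≥ k₀`
there is a finite `k`-chromatic graph `G` such that no subgraph `G'` of `G` (induced or not, of any
chromatic number) has a chromatic `k`-scheme, i.e. a proper colouring `f` with colours `Fin k`,
vertices `x i` with `f (x i) = i`, and for all `i < j` a path of `G'` from `x i` to `x j` whose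
vertices are coloured alternately `i` and `j` by `f`. -/
theorem result : ∃ k₀ : ℕ, 4 ≤ k₀ ∧ ∀ k : ℕ, k₀ ≤ k →
    ∃ (V : Type) (_ : Fintype V) (G : SimpleGraph V), G.chromaticNumber = (k : ℕ∞) ∧
      ∀ G' : G.Subgraph, ¬ ∃ (f : G'.coe.Coloring (Fin k)) (x : Fin k → G'.verts),
        (∀ i, f (x i) = i) ∧
        ∀ i j, i < j → ∃ p : G'.coe.Walk (x i) (x j), p.IsPath ∧
          ∀ n ≤ p.length, f (p.getVert n) = if Even n then i else j := by
  obtain ⟨k₀, V, _, G, h4, h1, h2, h3⟩ := base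
  refine ⟨k₀, h4, ?_⟩
  intro k hk
  obtain ⟨t, rfl⟩ := Nat.exists_eq_add_of_le hk
  obtain ⟨W, hW, H, a1, a2, a3⟩ := exists_join t V G h1 h2 h3
  refine ⟨W, hW, H, ?_, a3⟩
  obtain ⟨n, hn⟩ : ∃ n, k₀ + t = n + 1 := ⟨k₀ + t - 1, by omega⟩
  rw [hn] at a1 a2 ⊢
  have := SimpleGraph.chromaticNumber_eq_iff_colorable_not_colorable.2
    ⟨a1, a2 n (Nat.lt_succ_self n)⟩
  rw [this]
  push_cast
  rfl

end Pool.Agent.Results.MP_ae60c6_co.NoChromaticScheme
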